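import Pool.Agent.R121.OfFn

set_option autoImplicit false

/-!
# Permutations avoiding a shaded mesh pattern on 132

The mesh pattern occurs iff for some nonempty proper prefix with largest value `m` the next two entries
are `m + 2, m + 1`. Such pairs can be removed and inserted, and inclusion-exclusion gives
`∑_j (-1)^j binom(n-1-j, j) (n-2j)!`.
-/

namespace Pool.Agent.Results.MP_f17a8d_co.Mesh132

open Finset Pool.Agent.R121

/-- The shaded boxes. -/
def R : Finset (ℕ × ℕ) :=
  {(0, 2), (0, 3), (1, 2), (1, 3), (2, 0), (2, 1), (2, 2), (2, 3), (3, 1), (3, 2)}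

/-- The permutation `π` of `{0, …, n-1}` (places and values are shifted by `1`) contains the mesh
pattern `(132, R)`. -/
def ContainsMesh {n : ℕ} (π : Equiv.Perm (Fin n)) : Prop :=
  ∃ i₁ i₂ i₃ : Fin n, i₁ < i₂ ∧ i₂ < i₃ ∧ π i₁ < π i₃ ∧ π i₃ < π i₂ ∧
    ∀ p ∈ R, ∀ x : Fin n,
      ¬ ([0, (i₁ : ℕ) + 1, i₂ + 1, i₃ + 1, n + 1].getD p.1 0 < (x : ℕ) + 1 ∧
        (x : ℕ) + 1 < [0, (i₁ : ℕ) + 1, i₂ + 1, i₃ + 1, n + 1].getD (p.1 + 1) 0 ∧
        [0, (π i₁ : ℕ) + 1, π i₃ + 1, π i₂ + 1, n + 1].getD p.2 0 < (π x : ℕ) + 1 ∧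
        (π x : ℕ) + 1 < [0, (π i₁ : ℕ) + 1, π i₃ + 1, π i₂ + 1, n + 1].getD (p.2 + 1) 0)

/-- occurrences in terms of functions -/
def Occ (n : ℕ) (f : ℕ → ℕ) (b : ℕ) : Prop :=
  1 ≤ b ∧ b + 1 < n ∧ f b = f (b + 1) + 1 ∧ (∀ i < b, f i < f (b + 1)) ∧ ∃ i < b, f i + 1 = f (b + 1)

lemma contains_iff {n : ℕ} (π : Equiv.Perm (Fin n)) :
    ContainsMesh π ↔ ∃ b, Occ n (fn π) b := by
  constructor
  · rintro ⟨i₁, i₂, i₃, h1, h2, h3, h4, h⟩
    rw [Fin.lt_def] at h1 h2 h3 h4
    have ne : ∀ x y : Fin n, (x : ℕ) ≠ y → (π x : ℕ) ≠ π y := by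
      intro x y hxy he
      exact hxy (congrArg Fin.val (π.injective (Fin.ext he)))
    have hadj : (i₃ : ℕ) = i₂ + 1 := by
      by_contra h5
      have hx : (i₂ : ℕ) + 1 < n := by omega
      have a1 := h (2, 0) (by decide) ⟨i₂ + 1, hx⟩
      have a2 := h (2, 1) (by decide) ⟨i₂ + 1, hx⟩
      have a3 := h (2, 2) (by decide) ⟨i₂ + 1, hx⟩
      have a4 := h (2, 3) (by decide) ⟨i₂ + 1, hx⟩
      simp at a1 a2 a3 a4
      have n1 := ne ⟨i₂ + 1, hx⟩ i₁ (by simp; omega)
      have n2 := ne ⟨i₂ + 1, hx⟩ i₂ (by simp)
      have n3 := ne ⟨i₂ + 1, hx⟩ i₃ (by simp; omega)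
      have n4 := (π ⟨i₂ + 1, hx⟩).2
      omega
    have f1 : fn π i₁ = π i₁ := fn_fin π i₁
    have f2 : fn π i₂ = π i₂ := fn_fin π i₂
    have f3' : fn π i₃ = π i₃ := fn_fin π i₃
    have f3 : fn π (i₂ + 1) = π i₃ := by rw [← hadj]; exact fn_fin π i₃
    have hcons : (π i₂ : ℕ) = π i₃ + 1 := by
      by_contra h5
      have h6 := (π i₂).2
      obtain ⟨x, hx, hxw⟩ := fn_surj π ((π i₃ : ℕ) + 1) (by omega)
      have fx := fn_fin π ⟨x, hx⟩
      simp only at fx
      have a1 := h (0, 2) (by decide) ⟨x, hx⟩
      have a2 := h (1, 2) (by decide) ⟨x, hx⟩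
      have a3 := h (2, 2) (by decide) ⟨x, hx⟩
      have a4 := h (3, 2) (by decide) ⟨x, hx⟩
      simp at a1 a2 a3 a4
      have n1 : x ≠ i₁ := by rintro rfl; omega
      have n2 : x ≠ i₂ := by rintro rfl; omega
      have n3 : x ≠ i₃ := by rintro rfl; omega
      omega
    refine ⟨i₂, by omega, by omega, by omega, ?_, ?_⟩
    · intro i hi
      by_contra h5
      have hin : i < n := by omega
      have fx := fn_fin π ⟨i, hin⟩
      simp only at fx
      have a1 := h (0, 2) (by decide) ⟨i, hin⟩
      have a2 := h (1, 2) (by decide) ⟨i, hin⟩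
      have a3 := h (0, 3) (by decide) ⟨i, hin⟩
      have a4 := h (1, 3) (by decide) ⟨i, hin⟩
      simp at a1 a2 a3 a4
      have n1 : i ≠ i₁ := by rintro rfl; omega
      have n2 := ne ⟨i, hin⟩ i₂ (by simp; omega)
      have n3 := ne ⟨i, hin⟩ i₃ (by simp; omega)
      have n4 := (π ⟨i, hin⟩).2
      omega
    · have h6 := (π i₃).2
      obtain ⟨x, hx, hxw⟩ := fn_surj π ((π i₃ : ℕ) - 1) (by omega)
      refine ⟨x, ?_, by omega⟩
      by_contra h5
      have fx := fn_fin π ⟨x, hx⟩
      simp only at fx
      have a1 := h (3, 1) (by decide) ⟨x, hx⟩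
      simp at a1
      have n2 : x ≠ i₂ := by rintro rfl; omega
      have n3 : x ≠ i₃ := by rintro rfl; omega
      have n4 := ne ⟨x, hx⟩ i₁ (by simp; omega)
      omega
  · rintro ⟨b, hb1, hb2, h1, h2, i, hi, h3⟩
    have f1 := fn_fin π ⟨i, by omega⟩
    have f2 := fn_fin π ⟨b, by omega⟩
    have f3 := fn_fin π ⟨b + 1, hb2⟩
    simp only at f1 f2 f3
    refine ⟨⟨i, by omega⟩, ⟨b, by omega⟩, ⟨b + 1, hb2⟩, ?_, ?_, ?_, ?_, ?_⟩
    · rw [Fin.lt_def]; exact hi
    · rw [Fin.lt_def]; simp
    · rw [Fin.lt_def]; omega
    · rw [Fin.lt_def]; omega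
    · intro p hp x
      have fx := fn_fin π x
      simp only [R, mem_insert, mem_singleton] at hp
      rcases hp with rfl | rfl | rfl | rfl | rfl | rfl | rfl | rfl | rfl | rfl <;>
        simp only [List.getD_cons_zero, List.getD_cons_succ] <;> intro h
      · omega
      · have := h2 x (by omega)
        omega
      · omega
      · have := h2 x (by omega)
        omega
      · omega
      · omega
      · omega
      · omega
      · omega
      · omega

/-- no occurrence at the places before `k` -/
def NF (n : ℕ) (f : ℕ → ℕ) (k : ℕ) : Prop := ∀ b < k, ¬ Occ n f b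

open Classical in
/-- the permutations without occurrence before `k` -/
noncomputable def A (n k : ℕ) : Finset (Equiv.Perm (Fin n)) := univ.filter fun π => NF n (fn π) k

lemma mem_A {n k : ℕ} {π : Equiv.Perm (Fin n)} : π ∈ A n k ↔ NF n (fn π) k := by simp [A]

/-- the value after the prefix -/
def vv {n : ℕ} (σ : Equiv.Perm (Fin n)) (b : ℕ) : ℕ := (range b).sup (fn σ) + 1

lemma vv_gt {n : ℕ} (σ : Equiv.Perm (Fin n)) {b i : ℕ} (h : i < b) : fn σ i < vv σ b := by
  unfold vv
  have := Finset.le_sup (f := fn σ) (mem_range.2 h)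
  omega

lemma vv_ex {n : ℕ} (σ : Equiv.Perm (Fin n)) {b : ℕ} (h : 1 ≤ b) : ∃ i < b, fn σ i + 1 = vv σ b := by
  obtain ⟨i, hi, he⟩ := exists_mem_eq_sup (range b) ⟨0, mem_range.2 (by omega)⟩ (fn σ)
  exact ⟨i, mem_range.1 hi, by unfold vv; rw [he]⟩

lemma vv_le {n : ℕ} (σ : Equiv.Perm (Fin n)) {b : ℕ} (h : 1 ≤ b) (hb : b ≤ n) : vv σ b ≤ n := by
  obtain ⟨i, hi, he⟩ := vv_ex σ h
  have := fn_lt σ (show i < n by omega)
  omega

/-- the function of the permutation with the inserted pair -/
def PF {n : ℕ} (b : ℕ) (σ : Equiv.Perm (Fin n)) (i : ℕ) : ℕ :=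
  if i < b then fn σ i else if i = b then vv σ b + 1 else if i = b + 1 then vv σ b else
    if fn σ (i - 2) < vv σ b then fn σ (i - 2) else fn σ (i - 2) + 2

lemma PF_lt {n b : ℕ} (h1 : 1 ≤ b) (hb : b ≤ n) (σ : Equiv.Perm (Fin n)) :
    ∀ i < n + 2, PF b σ i < n + 2 := by
  intro i hi
  have h2 := vv_le σ h1 hb
  unfold PF
  split_ifs
  · have := fn_lt σ (show i < n by omega); omega
  · omega
  · omega
  · omega
  · have := fn_lt σ (show i - 2 < n by omega); omega

lemma PF_inj {n b : ℕ} (h1 : 1 ≤ b) (hb : b ≤ n) (σ : Equiv.Perm (Fin n)) :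
    ∀ i < n + 2, ∀ j < n + 2, PF b σ i = PF b σ j → i = j := by
  have key : ∀ i < n + 2, ∀ j < n + 2, i < j → PF b σ i ≠ PF b σ j := by
    intro i hi j hj hij
    have hg := fun (x : ℕ) (hx : x < b) => vv_gt σ hx
    have hin := fn_inj σ
    unfold PF
    by_cases c1 : i < b
    · rw [if_pos c1]
      have g1 := hg i c1
      by_cases c2 : j < b
      · rw [if_pos c2]
        intro h
        have := hin i (by omega) j (by omega) h
        omega
      · rw [if_neg c2]
        by_cases c3 : j = b
        · rw [if_pos c3]; omega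
        · rw [if_neg c3]
          by_cases c4 : j = b + 1
          · rw [if_pos c4]; omega
          · rw [if_neg c4]
            intro h
            split_ifs at h with c5
            · have := hin i (by omega) (j - 2) (by omega) h
              omega
            · omega
    · rw [if_neg c1, if_neg (show ¬ j < b by omega), if_neg (show ¬ j = b by omega)]
      by_cases c2 : i = b
      · rw [if_pos c2]
        split_ifs <;> omega
      · rw [if_neg c2, if_neg (show ¬ j = b + 1 by omega)]
        by_cases c3 : i = b + 1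
        · rw [if_pos c3]
          split_ifs <;> omega
        · rw [if_neg c3]
          intro h
          have : fn σ (i - 2) = fn σ (j - 2) := by
            split_ifs at h <;> omega
          have := hin (i - 2) (by omega) (j - 2) (by omega) this
          omega
  intro i hi j hj h
  rcases Nat.lt_trichotomy i j with h2 | h2 | h2
  · exact absurd h (key i hi j hj h2)
  · exact h2
  · exact absurd h.symm (key j hj i hi h2)

/-- inserting a pair -/
noncomputable def pins {n b : ℕ} (h1 : 1 ≤ b) (hb : b ≤ n) (σ : Equiv.Perm (Fin n)) :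
    Equiv.Perm (Fin (n + 2)) := ofFn (n + 2) (PF b σ) (PF_lt h1 hb σ) (PF_inj h1 hb σ)

lemma occ_congr {n n' : ℕ} {f g : ℕ → ℕ} {b c : ℕ} (h : ∀ i < c, f i = g i) (hb : b + 1 < c)
    (hc : c ≤ n) (hc' : c ≤ n') : Occ n f b ↔ Occ n' g b := by
  unfold Occ
  rw [h b (by omega), h (b + 1) hb]
  constructor
  · rintro ⟨h1, h2, h3, h4, i, h5, h6⟩
    exact ⟨h1, by omega, h3, fun j hj => by rw [← h j (by omega)]; exact h4 j hj,
      i, h5, by rw [← h i (by omega)]; exact h6⟩
  · rintro ⟨h1, h2, h3, h4, i, h5, h6⟩
    exact ⟨h1, by omega, h3, fun j hj => by rw [h j (by omega)]; exact h4 j hj,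
      i, h5, by rw [h i (by omega)]; exact h6⟩

lemma A_rec (n k : ℕ) (h1 : 1 ≤ k) (hk : k ≤ n) :
    (A (n + 2) (k + 1)).card + (A n (k - 1)).card = (A (n + 2) k).card := by
  classical
  have hsplit := Finset.card_filter_add_card_filter_not (s := A (n + 2) k)
    (fun π => ¬ Occ (n + 2) (fn π) k)
  rw [← hsplit]
  congr 1
  · congr 1
    ext π
    simp only [mem_A, mem_filter]
    constructor
    · intro h
      exact ⟨fun b hb => h b (by omega), h k (by omega)⟩
    · rintro ⟨h2, h3⟩ b hb
      rcases Nat.lt_or_ge b k with h4 | h4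
      · exact h2 b h4
      · have : b = k := by omega
        rw [this]; exact h3
  · refine card_bij (fun σ _ => pins h1 hk σ) ?_ ?_ ?_
    · intro σ hσ
      rw [mem_A] at hσ
      have e : ∀ i < n + 2, fn (pins h1 hk σ) i = PF k σ i := fun i hi => fn_ofFn hi
      have e0 : ∀ i < k, fn (pins h1 hk σ) i = fn σ i := by
        intro i hi
        rw [e i (by omega)]
        unfold PF
        rw [if_pos hi]
      have e1 : fn (pins h1 hk σ) k = vv σ k + 1 := by
        rw [e k (by omega)]; unfold PF
        rw [if_neg (lt_irrefl _), if_pos rfl]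
      have e2 : fn (pins h1 hk σ) (k + 1) = vv σ k := by
        rw [e (k + 1) (by omega)]; unfold PF
        rw [if_neg (by omega), if_neg (by omega), if_pos rfl]
      simp only [mem_filter, mem_A, not_not]
      constructor
      · intro b hb
        rcases Nat.lt_or_ge (b + 1) k with h2 | h2
        · rw [occ_congr e0 h2 (by omega) hk]
          exact hσ b (by omega)
        · rintro ⟨h3, h4, h5, h6⟩
          have h7 : b + 1 = k := by omega
          rw [h7, e1, e0 b (by omega)] at h5
          have := vv_gt σ (show b < k from hb)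
          omega
      · refine ⟨h1, by omega, by rw [e1, e2], ?_, ?_⟩
        · intro i hi
          rw [e0 i hi, e2]
          exact vv_gt σ hi
        · obtain ⟨i, hi, he⟩ := vv_ex σ h1
          exact ⟨i, hi, by rw [e0 i hi, e2]; exact he⟩
    · intro σ _ σ' _ h
      have e : ∀ i < n + 2, PF k σ i = PF k σ' i := by
        intro i hi
        have a1 : fn (pins h1 hk σ) i = PF k σ i := fn_ofFn hi
        have a2 : fn (pins h1 hk σ') i = PF k σ' i := fn_ofFn hi
        rw [← a1, ← a2, h]
      have hv : vv σ k = vv σ' k := by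
        have := e (k + 1) (by omega)
        unfold PF at this
        rwa [if_neg (by omega), if_neg (by omega), if_pos rfl, if_neg (by omega),
          if_neg (by omega), if_pos rfl] at this
      apply ext_of_fn
      intro i hi
      rcases Nat.lt_or_ge i k with h2 | h2
      · have := e i (by omega)
        unfold PF at this
        rwa [if_pos h2, if_pos h2] at this
      · have := e (i + 2) (by omega)
        unfold PF at this
        rw [if_neg (show ¬ i + 2 < k by omega), if_neg (show ¬ i + 2 = k by omega),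
          if_neg (show ¬ i + 2 = k + 1 by omega), if_neg (show ¬ i + 2 < k by omega),
          if_neg (show ¬ i + 2 = k by omega), if_neg (show ¬ i + 2 = k + 1 by omega),
          Nat.add_sub_cancel, ← hv] at this
        split_ifs at this <;> omega
    · intro π hπ
      simp only [mem_filter, mem_A, not_not] at hπ
      obtain ⟨hN, ho1, ho2, ho3, ho4, i0, ho5, ho6⟩ := hπ
      set v := fn π (k + 1) with hv
      have hvn : v ≤ n := by
        have := fn_lt π (show k < n + 2 by omega)
        omega
      have hin := fn_inj π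
      let G : ℕ → ℕ := fun i => if i < k then fn π i else
        if fn π (i + 2) < v then fn π (i + 2) else fn π (i + 2) - 2
      have hne : ∀ i, k ≤ i → i < n → fn π (i + 2) ≠ v ∧ fn π (i + 2) ≠ v + 1 := by
        intro i h2 h3
        constructor
        · intro h
          have := hin (i + 2) (by omega) (k + 1) (by omega) h
          omega
        · intro h
          have := hin (i + 2) (by omega) k (by omega) (by omega)
          omega
      have hGlt : ∀ i < n, G i < n := by
        intro i hi
        simp only [G]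
        split_ifs with c1 c2
        · have := ho4 i c1
          omega
        · omega
        · have := fn_lt π (show i + 2 < n + 2 by omega)
          have := hne i (by omega) hi
          omega
      have hGinj' : ∀ i < n, ∀ j < n, i < j → G i ≠ G j := by
        intro i hi j hj hij h
        simp only [G] at h
        by_cases c1 : i < k
        · rw [if_pos c1] at h
          have g1 := ho4 i c1
          by_cases c2 : j < k
          · rw [if_pos c2] at h
            have := hin i (by omega) j (by omega) h
            omega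
          · rw [if_neg c2] at h
            have g2 := hne j (by omega) hj
            split_ifs at h with c3
            · have := hin i (by omega) (j + 2) (by omega) h
              omega
            · omega
        · rw [if_neg c1, if_neg (show ¬ j < k by omega)] at h
          have g1 := hne i (by omega) hi
          have g2 := hne j (by omega) hj
          have : fn π (i + 2) = fn π (j + 2) := by
            split_ifs at h <;> omega
          have := hin (i + 2) (by omega) (j + 2) (by omega) this
          omega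
      have hGinj : ∀ i < n, ∀ j < n, G i = G j → i = j := by
        intro i hi j hj h
        rcases Nat.lt_trichotomy i j with h2 | h2 | h2
        · exact absurd h (hGinj' i hi j hj h2)
        · exact h2
        · exact absurd h.symm (hGinj' j hj i hi h2)
      have eG : ∀ i < n, fn (ofFn n G hGlt hGinj) i = G i := fun i hi => fn_ofFn hi
      have eG0 : ∀ i < k, fn (ofFn n G hGlt hGinj) i = fn π i := by
        intro i hi
        rw [eG i (by omega)]
        simp only [G]
        rw [if_pos hi]
      have hvv : vv (ofFn n G hGlt hGinj) k = v := by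
        apply le_antisymm
        · obtain ⟨i, hi, he⟩ := vv_ex (ofFn n G hGlt hGinj) h1
          rw [eG0 i hi] at he
          have := ho4 i hi
          omega
        · have := vv_gt (ofFn n G hGlt hGinj) ho5
          rw [eG0 i0 ho5] at this
          omega
      refine ⟨ofFn n G hGlt hGinj, ?_, ?_⟩
      · rw [mem_A]
        intro b hb
        rw [occ_congr eG0 (show b + 1 < k by omega) hk (show k ≤ n + 2 by omega)]
        exact hN b (by omega)
      · apply ext_of_fn
        intro i hi
        have a1 : fn (pins h1 hk (ofFn n G hGlt hGinj)) i = PF k (ofFn n G hGlt hGinj) i := fn_ofFn hi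
        rw [a1]
        unfold PF
        rw [hvv]
        split_ifs with c1 c2 c3 c4
        · exact eG0 i c1
        · rw [c2]; omega
        · rw [c3]
        · rw [eG (i - 2) (by omega)] at c4 ⊢
          simp only [G] at c4 ⊢
          have c5 : i - 2 + 2 = i := by omega
          have := hne (i - 2) (by omega) (by omega)
          rw [c5] at c4 this ⊢
          rw [if_neg (show ¬ i - 2 < k by omega)] at c4 ⊢
          split_ifs at c4 ⊢ <;> omega
        · rw [eG (i - 2) (by omega)] at c4 ⊢
          simp only [G] at c4 ⊢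
          have c5 : i - 2 + 2 = i := by omega
          have := hne (i - 2) (by omega) (by omega)
          rw [c5] at c4 this ⊢
          rw [if_neg (show ¬ i - 2 < k by omega)] at c4 ⊢
          split_ifs at c4 ⊢ <;> omega

lemma A_zero (n : ℕ) : (A n 0).card = n.factorial := by
  have : A n 0 = univ := by
    ext π
    simp only [mem_A, mem_univ, iff_true]
    intro b hb
    omega
  rw [this, card_univ, Fintype.card_perm, Fintype.card_fin]

lemma A_one (n : ℕ) : (A n 1).card = n.factorial := by
  have : A n 1 = univ := by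
    ext π
    simp only [mem_A, mem_univ, iff_true]
    rintro b hb ⟨h1, -⟩
    omega
  rw [this, card_univ, Fintype.card_perm, Fintype.card_fin]

lemma A_closed (k : ℕ) : ∀ n J : ℕ, k + 1 ≤ n → k < 2 * J →
    ((A n k).card : ℚ) = ∑ j ∈ range J, (-1) ^ j * ((k - j).choose j : ℚ) * (n - 2 * j).factorial := by
  induction k using Nat.strong_induction_on with
  | _ k ih =>
  intro n J hn hJ
  obtain ⟨J, rfl⟩ : ∃ J', J = J' + 1 := ⟨J - 1, by omega⟩
  rcases Nat.lt_or_ge k 2 with hk | hk
  · rw [sum_range_succ', sum_eq_zero]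
    · rcases (show k = 0 ∨ k = 1 by omega) with h | h
      · subst h; rw [A_zero]; simp
      · subst h; rw [A_one]; simp
    · intro j _
      have : k - (j + 1) = 0 := by omega
      rw [this, Nat.choose_zero_succ]
      simp
  · obtain ⟨k, rfl⟩ : ∃ k', k = k' + 1 := ⟨k - 1, by omega⟩
    obtain ⟨n, rfl⟩ : ∃ n', n = n' + 2 := ⟨n - 2, by omega⟩
    have h1 := A_rec n k (by omega) (by omega)
    have h2 := ih k (by omega) (n + 2) (J + 1) (by omega) (by omega)
    have h3 := ih (k - 1) (by omega) n J (by omega) (by omega)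
    have h4 : ((A (n + 2) (k + 1)).card : ℚ) = (A (n + 2) k).card - (A n (k - 1)).card := by
      rw [← h1]; push_cast; ring
    rw [h4, h2, h3, sum_range_succ', sum_range_succ', add_sub_right_comm, ← sum_sub_distrib]
    congr 1
    · apply sum_congr rfl
      intro j _
      have e1 : n + 2 - 2 * (j + 1) = n - 2 * j := by omega
      have e2 : ((k + 1 - (j + 1)).choose (j + 1) : ℚ) =
          (k - (j + 1)).choose (j + 1) + (k - 1 - j).choose j := by
        have e3 : k + 1 - (j + 1) = k - j := by omega
        have e4 : k - (j + 1) = k - 1 - j := by omega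
        rw [e3, e4]
        rcases Nat.lt_or_ge j k with h5 | h5
        · obtain ⟨q, hq⟩ : ∃ q, k - j = q + 1 := ⟨k - j - 1, by omega⟩
          have e5 : k - 1 - j = q := by omega
          rw [hq, e5, Nat.choose_succ_succ]
          push_cast
          ring
        · have e5 : k - j = 0 := by omega
          have e6 : k - 1 - j = 0 := by omega
          obtain ⟨r, rfl⟩ : ∃ r, j = r + 1 := ⟨j - 1, by omega⟩
          rw [e5, e6, Nat.choose_zero_succ, Nat.choose_zero_succ]
          simp
      rw [e1, e2]
      ring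
    · simp

/-- the number of avoiders -/
lemma card_avoid (n : ℕ) : (Nat.card {π : Equiv.Perm (Fin n) // ¬ ContainsMesh π} : ℚ) =
    ∑ j ∈ range (n / 2 + 1), (-1) ^ j * ((n - 1 - j).choose j : ℚ) * (n - 2 * j).factorial := by
  classical
  have h : Nat.card {π : Equiv.Perm (Fin n) // ¬ ContainsMesh π} = (A n (n - 1)).card := by
    rw [Nat.card_eq_fintype_card, Fintype.card_subtype]
    congr 1
    ext π
    rw [mem_A, mem_filter, contains_iff]
    simp only [mem_univ, true_and, not_exists]
    constructor
    · intro h b _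
      exact h b
    · intro h b hb
      exact h b (by have := hb.2.1; omega) hb
  rw [h]
  rcases Nat.eq_zero_or_pos n with h0 | h0
  · subst h0
    rw [A_zero]
    simp
  · exact A_closed (n - 1) n _ (by omega) (by omega)

open PowerSeries in
/-- the series `x / (1 + x^2)` -/
noncomputable def u : PowerSeries ℚ := X * (1 + X ^ 2)⁻¹

open PowerSeries in
lemma u_mul (m : ℕ) : (1 + X ^ 2) * u ^ (m + 1) = X * u ^ m := by
  have h : ((1 + X ^ 2 : PowerSeries ℚ)) * (1 + X ^ 2)⁻¹ = 1 := by
    apply PowerSeries.mul_inv_cancel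
    simp
  rw [pow_succ]
  calc (1 + X ^ 2) * (u ^ m * u) = u ^ m * (X * ((1 + X ^ 2) * (1 + X ^ 2)⁻¹)) := by
        unfold u; ring
    _ = X * u ^ m := by rw [h]; ring

/-- the coefficients of the powers of `u` -/
noncomputable def c (n m : ℕ) : ℚ := PowerSeries.coeff n (u ^ m)

lemma c_zero (n : ℕ) : c n 0 = if n = 0 then 1 else 0 := by
  unfold c
  rw [pow_zero, PowerSeries.coeff_one]

lemma c_zero_succ (m : ℕ) : c 0 (m + 1) = 0 := by
  have h := congrArg (PowerSeries.coeff 0) (u_mul m)
  rw [add_mul, one_mul, map_add] at h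
  simp at h
  unfold c
  simpa using h

lemma c_one_succ (m : ℕ) : c 1 (m + 1) = c 0 m := by
  have h := congrArg (PowerSeries.coeff 1) (u_mul m)
  rw [add_mul, one_mul, map_add, show (1 : ℕ) = 0 + 1 by rfl, PowerSeries.coeff_succ_X_mul,
    PowerSeries.coeff_X_pow_mul'] at h
  simpa [c] using h

lemma c_rec (n m : ℕ) : c (n + 2) (m + 1) + c n (m + 1) = c (n + 1) m := by
  have h := congrArg (PowerSeries.coeff (n + 2)) (u_mul m)
  rw [add_mul, one_mul, map_add, show n + 2 = (n + 1) + 1 by rfl, PowerSeries.coeff_succ_X_mul,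
    PowerSeries.coeff_X_pow_mul'] at h
  simpa [c] using h

lemma c_big (n : ℕ) : ∀ m, n < m → c n m = 0 := by
  induction n using Nat.strong_induction_on with
  | _ n ih =>
  intro m hm
  obtain ⟨m, rfl⟩ : ∃ m', m = m' + 1 := ⟨m - 1, by omega⟩
  match n, ih with
  | 0, _ => exact c_zero_succ m
  | 1, ih => rw [c_one_succ]; exact ih 0 (by omega) m (by omega)
  | n + 2, ih =>
    have h := c_rec n m
    rw [ih n (by omega) (m + 1) (by omega), ih (n + 1) (by omega) m (by omega)] at h
    linarith

lemma c_odd (n : ℕ) : ∀ m, (n + m) % 2 = 1 → c n m = 0 := by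
  induction n using Nat.strong_induction_on with
  | _ n ih =>
  intro m hm
  match m with
  | 0 => rw [c_zero, if_neg (by omega)]
  | m + 1 =>
    match n, ih with
    | 0, _ => exact c_zero_succ m
    | 1, ih => rw [c_one_succ]; exact ih 0 (by omega) m (by omega)
    | n + 2, ih =>
      have h := c_rec n m
      rw [ih n (by omega) (m + 1) (by omega), ih (n + 1) (by omega) m (by omega)] at h
      linarith

lemma c_diag (m : ℕ) : c m m = 1 := by
  induction m with
  | zero => rw [c_zero]; simp
  | succ m ih =>
    match m, ih with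
    | 0, ih => rw [c_one_succ]; exact ih
    | m + 1, ih =>
      have h := c_rec m (m + 1)
      rw [c_big m (m + 2) (by omega)] at h
      have : c (m + 1) (m + 1) = 1 := ih
      rw [this] at h
      linarith

lemma c_even (j : ℕ) : ∀ m, c (m + 2 * j) m = (-1) ^ j * ((m + j - 1).choose j : ℚ) := by
  induction j with
  | zero => intro m; simp [c_diag]
  | succ j ih =>
    intro m
    induction m with
    | zero =>
      rw [c_zero, if_neg (by omega)]
      have : 0 + (j + 1) - 1 = j := by omega
      rw [this, Nat.choose_succ_self]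
      simp
    | succ m ihm =>
      have h := c_rec (m + 1 + 2 * j) m
      have e1 : m + 1 + 2 * j + 2 = m + 1 + 2 * (j + 1) := by ring
      have e2 : m + 1 + 2 * j + 1 = m + 2 * (j + 1) := by ring
      rw [e1, e2, ih (m + 1), ihm] at h
      have e3 : m + 1 + (j + 1) - 1 = m + j + 1 := by omega
      have e4 : m + 1 + j - 1 = m + j := by omega
      have e5 : m + (j + 1) - 1 = m + j := by omega
      rw [e4, e5] at h
      rw [e3, Nat.choose_succ_succ]
      push_cast
      have h2 : c (m + 1 + 2 * (j + 1)) (m + 1) = (-1) ^ (j + 1) * ((m + j).choose (j + 1) : ℚ) -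
        (-1) ^ j * ((m + j).choose j : ℚ) := by linarith
      rw [h2, pow_succ]
      ring

lemma sum_c (n N : ℕ) (h : n ≤ N) : ∑ m ∈ range (N + 1), (m.factorial : ℚ) * c n m =
    ∑ j ∈ range (n / 2 + 1), (-1) ^ j * ((n - 1 - j).choose j : ℚ) * (n - 2 * j).factorial := by
  symm
  apply Finset.sum_of_injOn (fun j => n - 2 * j)
  · intro i hi j hj hij
    simp only [coe_range, Set.mem_Iio] at hi hj hij
    omega
  · intro i hi
    simp only [coe_range, Set.mem_Iio] at hi ⊢
    omega
  · intro i _ hi
    rcases Nat.lt_or_ge n i with h1 | h1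
    · rw [c_big n i h1, mul_zero]
    · rw [c_odd n i, mul_zero]
      by_contra h2
      apply hi
      refine ⟨(n - i) / 2, ?_, ?_⟩
      · simp only [coe_range, Set.mem_Iio]
        omega
      · simp only
        omega
  · intro j hj
    rw [mem_range] at hj
    have h1 := c_even j (n - 2 * j)
    have e1 : n - 2 * j + 2 * j = n := by omega
    have e2 : n - 2 * j + j - 1 = n - 1 - j := by omega
    rw [e1, e2] at h1
    rw [h1]
    ring

open PowerSeries in
/-- **Q1 of MP_f17a8d_co**: as formal power series
`∑_n |S_n(p)| x^n = ∑_m m! (x / (1 + x^2))^m`. -/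
theorem result (n N : ℕ) (h : n ≤ N) :
    (Nat.card {π : Equiv.Perm (Fin n) // ¬ ContainsMesh π} : ℚ) =
      coeff n (∑ m ∈ range (N + 1),
        (m.factorial : PowerSeries ℚ) * (X * (1 + X ^ 2 : PowerSeries ℚ)⁻¹) ^ m) := by
  rw [card_avoid, ← sum_c n N h, map_sum]
  apply sum_congr rfl
  intro m _
  have h2 : (m.factorial : PowerSeries ℚ) * (X * (1 + X ^ 2 : PowerSeries ℚ)⁻¹) ^ m =
      m.factorial • u ^ m := by
    rw [nsmul_eq_mul]; rfl
  rw [h2, map_nsmul, nsmul_eq_mul]
  rfl

end Pool.Agent.Results.MP_f17a8d_co.Mesh132
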